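import Pool.Agent.helper21.KBR.Defs

/-!
# Second moments of an ellipsoid (module D1 of the boundary rigidity theorem)
-/

noncomputable section

namespace KBR

open Set MeasureTheory
open scoped ContDiff RealInnerProductSpace

variable {n : ℕ}

theorem diag_sqrt (G : E n →L[ℝ] E n) (hs : ∀ u v, ⟪G u, v⟫ = ⟪G v, u⟫)
    (hp : ∀ v, v ≠ 0 → 0 < ⟪G v, v⟫) :
    ∃ R R' : E n →L[ℝ] E n, (∀ u v, ⟪R u, v⟫ = ⟪R v, u⟫) ∧ (∀ u v, ⟪R' u, v⟫ = ⟪R' v, u⟫) ∧
      R.comp R = G ∧ R.comp R' = ContinuousLinearMap.id ℝ _ ∧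
      R'.comp R = ContinuousLinearMap.id ℝ _ := by
  have hsym : (G : E n →ₗ[ℝ] E n).IsSymmetric := by
    intro u v
    have := hs u v
    rw [real_inner_comm u] at this
    exact this
  have hn : Module.finrank ℝ (E n) = n := by simp
  set b := hsym.eigenvectorBasis hn with hb
  set lam := hsym.eigenvalues hn with hlam
  have hG : ∀ i, G (b i) = lam i • b i := fun i => hsym.apply_eigenvectorBasis hn i
  have hlp : ∀ i, 0 < lam i := by
    intro i
    have h1 := hp (b i) (b.toBasis.ne_zero i)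
    rw [hG i, inner_smul_left] at h1
    simpa using h1
  have key : ∀ t : Fin n → ℝ, ∃ T : E n →L[ℝ] E n, (∀ i, T (b i) = t i • b i) ∧
      ∀ u v, ⟪T u, v⟫ = ⟪T v, u⟫ := by
    intro t
    refine ⟨LinearMap.toContinuousLinearMap (b.toBasis.constr ℝ fun i => t i • b i), ?_, ?_⟩
    · intro i
      simp
    · intro u v
      have h1 : ∀ u v : E n, ⟪(LinearMap.toContinuousLinearMap
          (b.toBasis.constr ℝ fun i => t i • b i) : E n →L[ℝ] E n) u, v⟫ =
          ∑ i, ⟪b i, u⟫ * (t i * ⟪b i, v⟫) := by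
        intro u v
        conv_lhs => rw [← b.sum_repr' u]
        rw [map_sum, sum_inner]
        refine Finset.sum_congr rfl fun i _ => ?_
        have := b.toBasis.constr_basis ℝ (fun i => t i • b i) i
        simp only [OrthonormalBasis.coe_toBasis] at this
        rw [map_smul, inner_smul_left]
        simp only [LinearMap.coe_toContinuousLinearMap', this, inner_smul_left]
        simp
      rw [h1, h1]
      refine Finset.sum_congr rfl fun i _ => by ring
  obtain ⟨R, hR, hRs⟩ := key fun i => Real.sqrt (lam i)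
  obtain ⟨R', hR', hRs'⟩ := key fun i => (Real.sqrt (lam i))⁻¹
  have hext : ∀ S T : E n →L[ℝ] E n, (∀ i, S (b i) = T (b i)) → S = T := by
    intro S T h
    have : (S : E n →ₗ[ℝ] E n) = T := b.toBasis.ext fun i => by simpa using h i
    exact_mod_cast this
  refine ⟨R, R', hRs, hRs', hext _ _ ?_, hext _ _ ?_, hext _ _ ?_⟩
  · intro i
    simp only [ContinuousLinearMap.comp_apply, hR, map_smul, hG, smul_smul]
    rw [Real.mul_self_sqrt (hlp i).le]
  · intro i
    simp only [ContinuousLinearMap.comp_apply, hR, hR', map_smul, smul_smul]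
    rw [inv_mul_cancel₀ (Real.sqrt_pos.2 (hlp i)).ne']; simp
  · intro i
    simp only [ContinuousLinearMap.comp_apply, hR, hR', map_smul, smul_smul]
    rw [mul_inv_cancel₀ (Real.sqrt_pos.2 (hlp i)).ne']; simp

/-- second moment form of the unit ball -/
def mom (u v : E n) : ℝ := ∫ q in Metric.closedBall (0 : E n) 1, ⟪q, u⟫ * ⟪q, v⟫

theorem mom_int (u v : E n) :
    IntegrableOn (fun q : E n => ⟪q, u⟫ * ⟪q, v⟫) (Metric.closedBall (0 : E n) 1) := by
  refine ContinuousOn.integrableOn_compact (isCompact_closedBall _ _) ?_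
  fun_prop

theorem mom_add_left (u u' v : E n) : mom (u + u') v = mom u v + mom u' v := by
  unfold mom
  rw [← integral_add (mom_int u v) (mom_int u' v)]
  refine integral_congr_ae (Filter.Eventually.of_forall fun q => ?_)
  simp only [inner_add_right]; ring

theorem mom_smul_left (a : ℝ) (u v : E n) : mom (a • u) v = a * mom u v := by
  unfold mom
  rw [← integral_const_mul]
  refine integral_congr_ae (Filter.Eventually.of_forall fun q => ?_)
  simp only [inner_smul_right]; ring

theorem mom_comm (u v : E n) : mom u v = mom v u := by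
  unfold mom
  refine integral_congr_ae (Filter.Eventually.of_forall fun q => ?_)
  simp only; ring

theorem mom_isometry (e : E n ≃ₗᵢ[ℝ] E n) (u v : E n) : mom (e u) (e v) = mom u v := by
  unfold mom
  have h := e.measurePreserving
  have h2 := h.setIntegral_preimage_emb e.toHomeomorph.measurableEmbedding
    (fun q : E n => ⟪q, e u⟫ * ⟪q, e v⟫) (Metric.closedBall (0 : E n) 1)
  rw [← h2, e.preimage_closedBall]
  simp only [map_zero, e.inner_map_map]

theorem mom_eq_of_norm_eq (u v : E n) (h : ‖u‖ = ‖v‖) : mom u u = mom v v := by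
  have := Submodule.reflection_sub h
  rw [← this, mom_isometry]

theorem mom_eq : ∃ c : ℝ, 0 < c ∧ ∀ u v : E n, mom u v = c * ⟪u, v⟫ := by
  rcases Nat.eq_zero_or_pos n with rfl | hn
  · refine ⟨1, one_pos, fun u v => ?_⟩
    have hu : u = 0 := Subsingleton.elim _ _
    have hv : v = 0 := Subsingleton.elim _ _
    subst hu hv
    simp [mom]
  · set e : E n := EuclideanSpace.single ⟨0, hn⟩ 1 with he
    have hen : ‖e‖ = 1 := by simp [he]
    have hdiag : ∀ u : E n, mom u u = mom e e * ⟪u, u⟫ := by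
      intro u
      have h1 : ‖u‖ = ‖(‖u‖ • e : E n)‖ := by rw [norm_smul, hen]; simp
      rw [mom_eq_of_norm_eq _ _ h1, mom_smul_left, mom_comm, mom_smul_left,
        real_inner_self_eq_norm_sq]
      ring
    refine ⟨mom e e, ?_, fun u v => ?_⟩
    · unfold mom
      have hnn : ∀ q : E n, 0 ≤ ⟪q, e⟫ * ⟪q, e⟫ := fun q => mul_self_nonneg _
      rw [integral_pos_iff_support_of_nonneg (fun q => hnn q) (mom_int e e)]
      have hop : IsOpen ({q : E n | ⟪q, e⟫ ≠ 0} ∩ Metric.ball 0 1) := by
        refine IsOpen.inter ?_ Metric.isOpen_ball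
        exact isOpen_ne_fun (by fun_prop) continuous_const
      have hne : ({q : E n | ⟪q, e⟫ ≠ 0} ∩ Metric.ball 0 1).Nonempty := by
        refine ⟨(1 / 2 : ℝ) • e, ?_, ?_⟩
        · simp [inner_smul_left, real_inner_self_eq_norm_sq, hen]
        · rw [mem_ball_zero_iff, norm_smul, hen]; norm_num
      have hpos := hop.measure_pos (volume : Measure (E n)) hne
      rw [Measure.restrict_apply' Metric.isClosed_closedBall.measurableSet]
      refine hpos.trans_le (measure_mono ?_)
      rintro q ⟨h1, h2⟩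
      refine ⟨?_, Metric.ball_subset_closedBall h2⟩
      rw [Function.mem_support]
      exact mul_ne_zero h1 h1
    · have h1 := hdiag (u + v)
      rw [mom_add_left, mom_comm u, mom_comm v (u + v), mom_add_left, mom_add_left, hdiag u,
        hdiag v, mom_comm v u, inner_add_add_self, real_inner_comm u v] at h1
      linarith

theorem mom_trace {c : ℝ} (hc : ∀ u v : E n, mom u v = c * ⟪u, v⟫) (S : E n →L[ℝ] E n) :
    ∫ q in Metric.closedBall (0 : E n) 1, ⟪S q, q⟫ =
      c * LinearMap.trace ℝ (E n) (S : E n →ₗ[ℝ] E n) := by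
  set b := EuclideanSpace.basisFun (Fin n) ℝ with hb
  have h1 : ∀ q : E n, ⟪S q, q⟫ = ∑ i, ⟪q, ContinuousLinearMap.adjoint S (b i)⟫ * ⟪q, b i⟫ := by
    intro q
    rw [← b.sum_inner_mul_inner (S q) q]
    refine Finset.sum_congr rfl fun i _ => ?_
    rw [ContinuousLinearMap.adjoint_inner_right, real_inner_comm q (b i)]
  simp_rw [h1]
  rw [integral_finsetSum _ fun i _ => mom_int _ _]
  rw [LinearMap.trace_eq_sum_inner _ b, Finset.mul_sum]
  refine Finset.sum_congr rfl fun i _ => ?_
  have := hc (ContinuousLinearMap.adjoint S (b i)) (b i)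
  unfold mom at this
  rw [this, ContinuousLinearMap.adjoint_inner_left]
  rfl

/-- MODULE D1: second moments of the dual unit ball of a positive definite `G`. -/
theorem ellipsoid : ∃ c : ℝ, 0 < c ∧ ∀ G B : E n →L[ℝ] E n,
    (∀ u v, ⟪G u, v⟫ = ⟪G v, u⟫) → (∀ v, v ≠ 0 → 0 < ⟪G v, v⟫) →
    ∫ p in {p : E n | ⟪G.inverse p, p⟫ ≤ 1}, ⟪B (G.inverse p), G.inverse p⟫ =
      c * (Real.sqrt G.det * LinearMap.trace ℝ (E n)
        ((G.inverse.comp B : E n →L[ℝ] E n) : E n →ₗ[ℝ] E n)) := by
  obtain ⟨c, hc0, hc⟩ := mom_eq (n := n)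
  refine ⟨c, hc0, fun G B hs hp => ?_⟩
  obtain ⟨R, R', hRs, hRs', hRR, hR1, hR2⟩ := diag_sqrt G hs hp
  have a1 : ∀ x, R (R' x) = x := fun x => by
    have := congrArg (fun T : E n →L[ℝ] E n => T x) hR1; simpa using this
  have a2 : ∀ x, R' (R x) = x := fun x => by
    have := congrArg (fun T : E n →L[ℝ] E n => T x) hR2; simpa using this
  have hGi : G.inverse = R'.comp R' := by
    refine ContinuousLinearMap.inverse_eq ?_ ?_
    · ext1 x; rw [← hRR]; simp [a1]
    · ext1 x; rw [← hRR]; simp [a2]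
  have himg : {p : E n | ⟪G.inverse p, p⟫ ≤ 1} = R '' Metric.closedBall 0 1 := by
    ext p
    simp only [mem_ofPred_eq, mem_image, mem_closedBall_zero_iff]
    constructor
    · intro h
      refine ⟨R' p, ?_, a1 p⟩
      rw [hGi] at h
      have h2 : ⟪R' (R' p), p⟫ = ‖R' p‖ ^ 2 := by
        rw [hRs', real_inner_self_eq_norm_sq]
      simp only [ContinuousLinearMap.comp_apply] at h
      rw [h2] at h
      nlinarith [norm_nonneg (R' p)]
    · rintro ⟨q, hq, rfl⟩
      rw [hGi]
      have h2 : ⟪R' (R' (R q)), R q⟫ = ‖q‖ ^ 2 := by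
        rw [hRs', a2, real_inner_self_eq_norm_sq]
      simp only [ContinuousLinearMap.comp_apply]
      rw [h2]
      nlinarith [norm_nonneg q]
  have hdet : |R.det| = Real.sqrt G.det := by
    have : G.det = R.det * R.det := by
      rw [← hRR]
      simp only [ContinuousLinearMap.det, ContinuousLinearMap.toLinearMap_comp, LinearMap.det_comp]
    rw [this, Real.sqrt_mul_self_eq_abs]
  have hinj : InjOn R (Metric.closedBall 0 1) := fun x _ y _ h => by
    rw [← a2 x, ← a2 y, h]
  rw [himg, integral_image_eq_integral_abs_det_fderiv_smul volume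
    Metric.isClosed_closedBall.measurableSet
    (fun x _ => R.hasFDerivAt.hasFDerivWithinAt) hinj]
  have e1 : ∀ q, |R.det| • ⟪B (G.inverse (R q)), G.inverse (R q)⟫ =
      Real.sqrt G.det * ⟪(R'.comp (B.comp R')) q, q⟫ := by
    intro q
    rw [hdet, hGi]
    simp only [ContinuousLinearMap.comp_apply, a2, smul_eq_mul]
    rw [hRs' (B (R' q)) q, real_inner_comm (B (R' q))]
  simp_rw [e1]
  rw [integral_const_mul, mom_trace hc, hGi]
  have e2 : LinearMap.trace ℝ (E n) ((R'.comp (B.comp R') : E n →L[ℝ] E n) : E n →ₗ[ℝ] E n) =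
      LinearMap.trace ℝ (E n) (((R'.comp R').comp B : E n →L[ℝ] E n) : E n →ₗ[ℝ] E n) := by
    simp only [ContinuousLinearMap.toLinearMap_comp]
    rw [← LinearMap.comp_assoc, LinearMap.trace_comp_comm', ← LinearMap.comp_assoc]
  rw [e2]
  ring

end KBR
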