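import Pool.Agent.helper21.KBR.Pull

/-!
# Module P: the pull-back of an almost Kähler structure under a pseudoholomorphic map
-/

noncomputable section

namespace KBR

open Set MeasureTheory
open scoped ContDiff RealInnerProductSpace

variable {n : ℕ}

/-- the adjoint as a real linear map -/
def adjL (n : ℕ) : (E n →L[ℝ] E n) →L[ℝ] (E n →L[ℝ] E n) :=
  LinearMap.toContinuousLinearMap
    { toFun := fun A => ContinuousLinearMap.adjoint A
      map_add' := fun A B => map_add _ A B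
      map_smul' := fun c A => by simp }

theorem adjL_apply (A : E n →L[ℝ] E n) : adjL n A = ContinuousLinearMap.adjoint A := rfl

theorem pb_smooth (ψ : E n → E n) (hψ : ContDiff ℝ ∞ ψ) (G : E n → E n →L[ℝ] E n)
    (hG : ContDiff ℝ ∞ G) : ContDiff ℝ ∞ (pb ψ G) := by
  have h1 : ContDiff ℝ ∞ (fderiv ℝ ψ) := hψ.fderiv_right (by simp)
  have h2 : ContDiff ℝ ∞ fun x => adjL n (fderiv ℝ ψ x) := (adjL n).contDiff.comp h1
  exact h2.clm_comp ((hG.comp hψ).clm_comp h1)

theorem pb_inv (ψ : E n → E n) (hψM : MapsTo ψ (M n) (M n)) (G J J' : E n → E n →L[ℝ] E n)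
    (h : IsAlmostKahler G J')
    (hol : ∀ x ∈ M n, ∀ v, fderiv ℝ ψ x (J x v) = J' (ψ x) (fderiv ℝ ψ x v)) :
    ∀ x ∈ M n, ∀ u v, ⟪pb ψ G x (J x u), J x v⟫ = ⟪pb ψ G x u, v⟫ := by
  intro x hx u v
  rw [pb_inner, pb_inner, hol x hx, hol x hx, h.inv _ (hψM hx)]

theorem omega_antisymm (G J' : E n → E n →L[ℝ] E n) (h : IsAlmostKahler G J') (z : E n)
    (hz : z ∈ M n) (a b : E n) : ⟪G z (J' z a), b⟫ = -⟪G z (J' z b), a⟫ := by
  have h1 := h.inv z hz (J' z a) b
  rw [h.sq z hz, map_neg, inner_neg_left, h.metric.symm z hz] at h1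
  linarith

/-- closedness: at interior points `B J = (dψ)ᵀ (G J')(ψ) dψ`, Leibniz rule, symmetry of `D²ψ`,
antisymmetry of `G J'` and closedness of `G J'`; at boundary points by continuity. -/
theorem pb_closed (ψ : E n → E n) (hψ : ContDiff ℝ ∞ ψ) (hψM : MapsTo ψ (M n) (M n))
    (G J J' : E n → E n →L[ℝ] E n) (hJ : ContDiff ℝ ∞ J) (h : IsAlmostKahler G J')
    (hol : ∀ x ∈ M n, ∀ v, fderiv ℝ ψ x (J x v) = J' (ψ x) (fderiv ℝ ψ x v)) :
    ∀ x ∈ M n, ∀ u v w,
      ⟪fderiv ℝ (fun y => (pb ψ G y).comp (J y)) x u v, w⟫ +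
      ⟪fderiv ℝ (fun y => (pb ψ G y).comp (J y)) x v w, u⟫ +
      ⟪fderiv ℝ (fun y => (pb ψ G y).comp (J y)) x w u, v⟫ = 0 := by
  have hom : ContDiff ℝ ∞ (fun y => (pb ψ G y).comp (J y)) :=
    (pb_smooth ψ hψ G h.metric.smooth).clm_comp hJ
  have hOm : ContDiff ℝ ∞ (fun y => (G y).comp (J' y)) := h.metric.smooth.clm_comp h.smoothJ
  have hd : ContDiff ℝ ∞ (fderiv ℝ ψ) := hψ.fderiv_right (by simp)
  set om : E n → E n →L[ℝ] E n := fun y => (pb ψ G y).comp (J y) with homd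
  set Om : E n → E n →L[ℝ] E n := fun y => (G y).comp (J' y) with hOmd
  -- interior points
  have hint : ∀ x ∈ Metric.ball (0 : E n) 1, ∀ u v w,
      ⟪fderiv ℝ om x u v, w⟫ + ⟪fderiv ℝ om x v w, u⟫ + ⟪fderiv ℝ om x w u, v⟫ = 0 := by
    intro x hx u v w
    have hxM : x ∈ M n := Metric.ball_subset_closedBall hx
    have hder : ∀ u v w, ⟪fderiv ℝ om x u v, w⟫ =
        ⟪fderiv ℝ Om (ψ x) (fderiv ℝ ψ x u) (fderiv ℝ ψ x v), fderiv ℝ ψ x w⟫ +
        ⟪Om (ψ x) (fderiv ℝ (fderiv ℝ ψ) x u v), fderiv ℝ ψ x w⟫ +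
        ⟪Om (ψ x) (fderiv ℝ ψ x v), fderiv ℝ (fderiv ℝ ψ) x u w⟫ := by
      intro u v w
      have e1 : HasFDerivAt (fun y => ⟪om y v, w⟫)
          ((innerSL ℝ w).comp ((ContinuousLinearMap.apply ℝ (E n) v).comp (fderiv ℝ om x))) x := by
        have a1 : HasFDerivAt om (fderiv ℝ om x) x :=
          (hom.differentiable (by simp) x).hasFDerivAt
        have a2 := ((innerSL ℝ w).comp (ContinuousLinearMap.apply ℝ (E n) v)).hasFDerivAt.comp x a1
        refine a2.congr_of_eventuallyEq (Filter.Eventually.of_forall fun y => ?_)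
        simp [real_inner_comm]
      have b1 : HasFDerivAt (fun y => Om (ψ y)) ((fderiv ℝ Om (ψ x)).comp (fderiv ℝ ψ x)) x :=
        (hOm.differentiable (by simp) (ψ x)).hasFDerivAt.comp x
          (hψ.differentiable (by simp) x).hasFDerivAt
      have b2 : HasFDerivAt (fderiv ℝ ψ) (fderiv ℝ (fderiv ℝ ψ) x) x :=
        (hd.differentiable (by simp) x).hasFDerivAt
      have b3 : ∀ v, HasFDerivAt (fun y => fderiv ℝ ψ y v)
          ((ContinuousLinearMap.apply ℝ (E n) v).comp (fderiv ℝ (fderiv ℝ ψ) x)) x := fun v =>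
        ((ContinuousLinearMap.apply ℝ (E n) v).hasFDerivAt).comp x b2
      have e2 := (b1.clm_apply (b3 v)).inner ℝ (b3 w)
      have e3 : HasFDerivAt (fun y => ⟪Om (ψ y) (fderiv ℝ ψ y v), fderiv ℝ ψ y w⟫)
          ((innerSL ℝ w).comp ((ContinuousLinearMap.apply ℝ (E n) v).comp (fderiv ℝ om x))) x := by
        refine e1.congr_of_eventuallyEq ?_
        filter_upwards [Metric.isOpen_ball.mem_nhds hx] with y hy
        have hyM : y ∈ M n := Metric.ball_subset_closedBall hy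
        simp only [homd, hOmd, ContinuousLinearMap.comp_apply, pb_inner, hol y hyM]
      have e4 := congrArg (fun A : E n →L[ℝ] ℝ => A u) (e3.unique e2)
      simp only [ContinuousLinearMap.comp_apply, innerSL_apply_apply,
        ContinuousLinearMap.apply_apply] at e4
      rw [real_inner_comm] at e4
      rw [e4]
      simp [inner_add_left]
      ring
    have hzM := hψM hxM
    have hcl := h.closed (ψ x) hzM (fderiv ℝ ψ x u) (fderiv ℝ ψ x v) (fderiv ℝ ψ x w)
    have hanti : ∀ a b, ⟪Om (ψ x) a, b⟫ = -⟪Om (ψ x) b, a⟫ := fun a b => by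
      simpa [hOmd] using omega_antisymm G J' h (ψ x) hzM a b
    have hsymm : ∀ a b, fderiv ℝ (fderiv ℝ ψ) x a b = fderiv ℝ (fderiv ℝ ψ) x b a := by
      intro a b
      have := (hψ.contDiffAt (x := x)).isSymmSndFDerivAt (by
        rw [minSmoothness_of_isRCLikeNormedField]; exact ENat.LEInfty.out)
      exact this a b
    rw [hder, hder, hder, hanti (fderiv ℝ ψ x v), hanti (fderiv ℝ ψ x w), hanti (fderiv ℝ ψ x u),
      hsymm v u, hsymm w v, hsymm w u]
    linarith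
  -- all points
  intro x hx u v w
  have hcont : Continuous fun x => ⟪fderiv ℝ om x u v, w⟫ + ⟪fderiv ℝ om x v w, u⟫ +
      ⟪fderiv ℝ om x w u, v⟫ := by
    have : Continuous (fderiv ℝ om) := hom.continuous_fderiv (by simp)
    fun_prop
  have hclosed : IsClosed {x | ⟪fderiv ℝ om x u v, w⟫ + ⟪fderiv ℝ om x v w, u⟫ +
      ⟪fderiv ℝ om x w u, v⟫ = 0} := isClosed_eq hcont continuous_const
  have hsub : closure (Metric.ball (0 : E n) 1) ⊆ {x | ⟪fderiv ℝ om x u v, w⟫ +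
      ⟪fderiv ℝ om x v w, u⟫ + ⟪fderiv ℝ om x w u, v⟫ = 0} :=
    hclosed.closure_subset_iff.2 fun y hy => hint y hy u v w
  rw [closure_ball _ one_ne_zero] at hsub
  exact hsub hx

end KBR
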