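import Mathlib

/-!
# Mass transport along orbit segments (module B of the boundary rigidity theorem)
-/

noncomputable section

namespace KBR

open Set MeasureTheory

/-- time interval spent in `C` by the orbit through `z` -/
def orbI {Z : Type*} (φ : ℝ → Z → Z) (C : Set Z) (z : Z) : Set ℝ :=
  {s | ∀ r ∈ uIcc 0 s, φ r z ∈ C}

theorem orbI_closed {Z : Type*} [TopologicalSpace Z] (φ : ℝ → Z → Z)
    (hφ : Continuous (fun q : ℝ × Z => φ q.1 q.2)) (C : Set Z) (hC : IsClosed C) :
    IsClosed {q : ℝ × Z | q.1 ∈ orbI φ C q.2} := by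
  have : {q : ℝ × Z | q.1 ∈ orbI φ C q.2} =
      ⋂ θ ∈ Icc (0 : ℝ) 1, {q : ℝ × Z | φ (θ * q.1) q.2 ∈ C} := by
    ext q
    simp only [mem_ofPred_eq, orbI, mem_iInter]
    constructor
    · intro h θ hθ
      apply h
      rw [mem_uIcc]
      rcases le_total 0 q.1 with h1 | h1
      · left; constructor
        · exact mul_nonneg hθ.1 h1
        · nlinarith [hθ.2]
      · right; constructor
        · nlinarith [hθ.2]
        · nlinarith [hθ.1]
    · intro h r hr
      by_cases hq : q.1 = 0
      · rw [hq, uIcc_self] at hr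
        have := h 0 ⟨le_refl _, zero_le_one⟩
        rw [hr]; simpa using this
      · have := h (r / q.1) (by
          rw [mem_uIcc] at hr
          rcases hr with hr | hr
          · have : 0 < q.1 := lt_of_le_of_ne (hr.1.trans hr.2) (Ne.symm hq)
            exact ⟨div_nonneg hr.1 this.le, (div_le_one this).2 hr.2⟩
          · have : q.1 < 0 := lt_of_le_of_ne (hr.1.trans hr.2) hq
            exact ⟨div_nonneg_of_nonpos hr.2 this.le, (div_le_one_of_neg this).2 hr.1⟩)
        rwa [div_mul_cancel₀ _ hq] at this
  rw [this]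
  refine isClosed_biInter fun θ _ => ?_
  exact hC.preimage (hφ.comp ((continuous_const.mul continuous_fst).prodMk continuous_snd))

theorem orbI_shift {Z : Type*} (φ : ℝ → Z → Z) (hadd : ∀ s t z, φ (s + t) z = φ s (φ t z))
    (C : Set Z) (w : Z) (s : ℝ) (hs : s ∈ orbI φ C w) (t : ℝ) :
    t ∈ orbI φ C (φ s w) ↔ t + s ∈ orbI φ C w := by
  simp only [orbI, mem_ofPred_eq] at *
  constructor
  · intro h r hr
    by_cases h1 : r ∈ uIcc 0 s
    · exact hs r h1
    · have := h (r - s) (by
        rw [mem_uIcc] at *
        push Not at h1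
        rcases hr with hr | hr
        · have := h1.1 hr.1
          left; constructor <;> linarith
        · by_cases h3 : s ≤ r
          · exact absurd (h1.2 h3) (by linarith [hr.2])
          · right; constructor <;> linarith)
      rw [← hadd] at this
      simpa using this
  · intro h r hr
    rw [← hadd]
    by_cases h1 : r + s ∈ uIcc 0 s
    · exact hs _ h1
    · apply h
      rw [mem_uIcc] at *
      push Not at h1
      rcases hr with hr | hr
      · by_cases h3 : 0 ≤ r + s
        · left; constructor <;> linarith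
        · exact absurd (h1.2 (by linarith)) (by linarith)
      · by_cases h3 : 0 ≤ r + s
        · exact absurd (h1.1 h3) (by linarith)
        · right; constructor <;> linarith

theorem orbI_shift_vol {Z : Type*} (φ : ℝ → Z → Z) (hadd : ∀ s t z, φ (s + t) z = φ s (φ t z))
    (C : Set Z) (w : Z) (s : ℝ) (hs : s ∈ orbI φ C w) :
    volume (orbI φ C (φ s w)) = volume (orbI φ C w) := by
  have : orbI φ C (φ s w) = (fun t => t + s) ⁻¹' (orbI φ C w) := by
    ext t; exact orbI_shift φ hadd C w s hs t
  rw [this, measure_preimage_add_right]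

theorem orbI_rev {Z : Type*} (φ : ℝ → Z → Z)
    (hadd : ∀ s t z, φ (s + t) z = φ s (φ t z))
    (C : Set Z) (w : Z) (s : ℝ) (hs : s ∈ orbI φ C w) :
    -s ∈ orbI φ C (φ s w) := by
  rw [orbI_shift φ hadd C w s hs]
  simp only [orbI, mem_ofPred_eq, neg_add_cancel, uIcc_self, mem_singleton_iff, forall_eq]
  have := hs 0 left_mem_uIcc
  exact this

/-- MODULE B: mass transport along orbit segments. -/
theorem transport {Z : Type*} [TopologicalSpace Z] [SecondCountableTopology Z]
    [MeasurableSpace Z] [BorelSpace Z] (μ : Measure Z) [SFinite μ]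
    (φ : ℝ → Z → Z) (hφ : Continuous (fun q : ℝ × Z => φ q.1 q.2))
    (h0 : ∀ z, φ 0 z = z) (hadd : ∀ s t z, φ (s + t) z = φ s (φ t z))
    (hmp : ∀ t, MeasurePreserving (φ t) μ μ)
    (C A : Set Z) (hC : IsClosed C) (hAC : A ⊆ C) (hA : MeasurableSet A) (hAf : μ A ≠ ⊤)
    (hinv : ∀ z ∈ A, ∀ s ∈ orbI φ C z, φ s z ∈ A)
    (F : Z → ℝ) (hF : Measurable F) (hFb : ∃ K, ∀ z ∈ A, |F z| ≤ K)
    (hfin : ∀ z ∈ A, Bornology.IsBounded (orbI φ C z))
    (hpos : ∀ᵐ z ∂(μ.restrict A), 0 < volume (orbI φ C z))
    (hint : ∀ z ∈ A, 0 ≤ ∫ r in orbI φ C z, F (φ r z)) :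
    0 ≤ ∫ z in A, F z ∂μ := by
  classical
  have hcl := orbI_closed φ hφ C hC
  have hO : MeasurableSet {q : ℝ × Z | q.1 ∈ orbI φ C q.2} := hcl.measurableSet
  have hOz : ∀ z, MeasurableSet (orbI φ C z) := fun z => by
    have := hO.preimage (measurable_prodMk_right (y := z) : Measurable fun s : ℝ => (s, z))
    exact this
  set l : Z → ℝ := fun z => (volume (orbI φ C z)).toReal with hl
  have hlm : Measurable l := by
    have := measurable_measure_prodMk_right (μ := (volume : Measure ℝ)) hO
    exact this.ennreal_toReal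
  set S : Set (ℝ × Z) := {q | q.2 ∈ A ∧ q.1 ∈ orbI φ C q.2} with hS
  have hSm : MeasurableSet S := (measurable_snd hA).inter hO
  set g : ℝ × Z → ℝ := S.indicator (fun q => F q.2 / l q.2) with hg
  have hgm : Measurable g :=
    ((hF.comp measurable_snd).div (hlm.comp measurable_snd)).indicator hSm
  have hgz : ∀ z, ∀ s, g (s, z) = if z ∈ A then
      (orbI φ C z).indicator (fun _ => F z / l z) s else 0 := by
    intro z s
    simp only [hg, hS, indicator, mem_ofPred_eq]
    by_cases h1 : z ∈ A <;> simp [h1]
  have hvol : ∀ z ∈ A, volume (orbI φ C z) ≠ ⊤ := fun z hz => (hfin z hz).measure_lt_top.ne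
  have hint1 : ∀ z, Integrable (fun s => g (s, z)) volume := by
    intro z
    by_cases hz : z ∈ A
    · have : (fun s => g (s, z)) = (orbI φ C z).indicator (fun _ => F z / l z) := by
        ext s; rw [hgz, if_pos hz]
      rw [this, integrable_indicator_iff (hOz z)]
      exact integrableOn_const (hvol z hz)
    · have : (fun s => g (s, z)) = fun _ => 0 := by
        ext s; rw [hgz, if_neg hz]
      rw [this]; exact integrable_zero _ _ _
  have hin : ∀ z, 0 < volume (orbI φ C z) → ∫ s, g (s, z) = A.indicator F z := by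
    intro z hz0
    by_cases hz : z ∈ A
    · have : (fun s => g (s, z)) = (orbI φ C z).indicator (fun _ => F z / l z) := by
        ext s; rw [hgz, if_pos hz]
      rw [this, integral_indicator (hOz z), setIntegral_const, indicator_of_mem hz]
      have : l z ≠ 0 := (ENNReal.toReal_pos hz0.ne' (hvol z hz)).ne'
      simp only [Measure.real, smul_eq_mul]
      change l z * (F z / l z) = F z
      field_simp
    · have : (fun s => g (s, z)) = fun _ => 0 := by
        ext s; rw [hgz, if_neg hz]
      rw [this, indicator_of_notMem hz]; simp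
  have hinn : ∀ z, ‖A.indicator (fun z => ∫ s, ‖g (s, z)‖) z‖ ≤ ‖A.indicator F z‖ := by
    intro z
    by_cases hz : z ∈ A
    · rw [indicator_of_mem hz, indicator_of_mem hz]
      have : (fun s => ‖g (s, z)‖) = (orbI φ C z).indicator (fun _ => ‖F z / l z‖) := by
        ext s; rw [hgz, if_pos hz]; exact norm_indicator_eq_indicator_norm _ _
      rw [this, integral_indicator (hOz z), setIntegral_const]
      simp only [Measure.real, smul_eq_mul]
      change ‖l z * ‖F z / l z‖‖ ≤ ‖F z‖
      have hl0 : 0 ≤ l z := ENNReal.toReal_nonneg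
      rw [norm_div, norm_mul, norm_div, norm_norm, norm_norm]
      by_cases hz0 : l z = 0
      · rw [hz0]; simp
      · have : ‖l z‖ ≠ 0 := norm_ne_zero_iff.2 hz0
        rw [mul_div_cancel₀ _ this]
    · rw [indicator_of_notMem hz, indicator_of_notMem hz]
  have hAF : Integrable (A.indicator F) μ := by
    rw [integrable_indicator_iff hA]
    obtain ⟨K, hK⟩ := hFb
    refine Measure.integrableOn_of_bounded (M := K) hAf hF.aestronglyMeasurable ?_
    filter_upwards [ae_restrict_mem hA] with z hz using hK z hz
  have hgint : Integrable g ((volume : Measure ℝ).prod μ) := by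
    rw [integrable_prod_iff' hgm.aestronglyMeasurable]
    refine ⟨Filter.Eventually.of_forall hint1, ?_⟩
    have he : (fun z => ∫ s, ‖g (s, z)‖) = A.indicator (fun z => ∫ s, ‖g (s, z)‖) := by
      ext z
      by_cases hz : z ∈ A
      · rw [indicator_of_mem hz]
      · rw [indicator_of_notMem hz]
        have : (fun s => ‖g (s, z)‖) = fun _ => 0 := by
          ext s; rw [hgz, if_neg hz]; simp
        rw [this]; simp
    refine hAF.mono ?_ (Filter.Eventually.of_forall ?_)
    · have : StronglyMeasurable fun z => ∫ s, ‖g (s, z)‖ :=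
        (hgm.norm.stronglyMeasurable).integral_prod_left'
      exact this.aestronglyMeasurable
    · intro z
      have := hinn z
      rw [← he] at this
      exact this
  -- the skew map
  set T : ℝ × Z → ℝ × Z := fun q => (q.1, φ (-q.1) q.2) with hT
  have hTm : MeasurePreserving T ((volume : Measure ℝ).prod μ) ((volume : Measure ℝ).prod μ) := by
    refine MeasurePreserving.skew_product (g := fun s z => φ (-s) z) (MeasurePreserving.id _)
      ?_ (Filter.Eventually.of_forall fun s => (hmp (-s)).map_eq)
    exact (hφ.comp ((continuous_fst.neg).prodMk continuous_snd)).measurable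
  have hTinj : MeasurableEmbedding T := by
    let e : ℝ × Z ≃ₜ ℝ × Z :=
      { toFun := T
        invFun := fun q => (q.1, φ q.1 q.2)
        left_inv := fun q => by
          simp only [hT]; rw [← hadd]; simp [h0]
        right_inv := fun q => by
          simp only [hT]; rw [← hadd]; simp [h0]
        continuous_toFun :=
          continuous_fst.prodMk (hφ.comp ((continuous_fst.neg).prodMk continuous_snd))
        continuous_invFun := continuous_fst.prodMk hφ }
    exact e.measurableEmbedding
  have hgT : Integrable (fun q => g (T q)) ((volume : Measure ℝ).prod μ) :=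
    (hTm.integrable_comp_emb hTinj).2 hgint
  have e1 : ∫ q, g (T q) ∂((volume : Measure ℝ).prod μ) =
      ∫ q, g q ∂((volume : Measure ℝ).prod μ) := hTm.integral_comp hTinj g
  have e2 : ∫ q, g q ∂((volume : Measure ℝ).prod μ) = ∫ z in A, F z ∂μ := by
    rw [integral_prod_symm _ hgint, ← integral_indicator hA]
    refine integral_congr_ae ?_
    rw [ae_restrict_iff' hA] at hpos
    filter_upwards [hpos] with z hz
    by_cases hzA : z ∈ A
    · exact hin z (hz hzA)
    · have : (fun s => g (s, z)) = fun _ => 0 := by
        ext s; rw [hgz, if_neg hzA]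
      rw [this, indicator_of_notMem hzA]; simp
  rw [← e2, ← e1, integral_prod_symm _ hgT]
  refine integral_nonneg fun z => ?_
  have hkey : ∀ s, g (T (s, z)) = if z ∈ A then
      (orbI φ C z).indicator (fun r => F (φ r z) / l z) (-s) else 0 := by
    intro s
    have hz' : φ s (φ (-s) z) = z := by rw [← hadd]; simp [h0]
    simp only [hT, hgz]
    by_cases h1 : φ (-s) z ∈ A ∧ s ∈ orbI φ C (φ (-s) z)
    · have h2 : z ∈ A := by
        have := hinv _ h1.1 s h1.2; rwa [hz'] at this
      have h3 : -s ∈ orbI φ C z := by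
        have := orbI_rev φ hadd C _ s h1.2; rwa [hz'] at this
      have h4 : l (φ (-s) z) = l z := by
        have := orbI_shift_vol φ hadd C _ s h1.2
        rw [hz'] at this
        simp only [hl, this]
      rw [if_pos h1.1, if_pos h2, indicator_of_mem h1.2, indicator_of_mem h3, h4]
    · have h2 : ¬ (z ∈ A ∧ -s ∈ orbI φ C z) := by
        rintro ⟨h2, h3⟩
        apply h1
        refine ⟨hinv _ h2 _ h3, ?_⟩
        have := orbI_rev φ hadd C _ (-s) h3
        rwa [neg_neg] at this
      have e3 : (if φ (-s) z ∈ A then (orbI φ C (φ (-s) z)).indicator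
          (fun _ => F (φ (-s) z) / l (φ (-s) z)) s else 0) = 0 := by
        by_cases h3 : φ (-s) z ∈ A
        · rw [if_pos h3, indicator_of_notMem fun h => h1 ⟨h3, h⟩]
        · rw [if_neg h3]
      rw [e3]
      by_cases h3 : z ∈ A
      · rw [if_pos h3, indicator_of_notMem fun h => h2 ⟨h3, h⟩]
      · rw [if_neg h3]
  change 0 ≤ ∫ s, g (T (s, z))
  by_cases hz : z ∈ A
  · have : (fun s => g (T (s, z))) =
        fun s => (orbI φ C z).indicator (fun r => F (φ r z) / l z) (-s) := by
      ext s; rw [hkey, if_pos hz]
    rw [this, integral_neg_eq_self (f := (orbI φ C z).indicator (fun r => F (φ r z) / l z)),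
      integral_indicator (hOz z), integral_div]
    exact div_nonneg (hint z hz) ENNReal.toReal_nonneg
  · have : (fun s => g (T (s, z))) = fun _ => 0 := by
      ext s; rw [hkey, if_neg hz]
    rw [this]; simp

end KBR
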